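import Pool.Agent.H240.GU.Def5

/-!
# GV-1: adding a strip to the covering of a surface

The union is the pullback of the covering under the local biholomorphism `Ψ` which is the identity on
`Ω` and `z ↦ Γ (z - (R0 + δ))` on the strip.
-/

set_option autoImplicit false
set_option linter.unusedSectionVars false

open Set Filter Topology MeasureTheory
open scoped ContDiff ComplexConjugate Real

noncomputable section

namespace Pool.Agent.H764.GV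

open Pool.Agent.Y262.EG Pool.Agent.Y262.EX Pool.Agent.Y262.EL Pool.Agent.Y262.QE
open Pool.Agent.Y264.QR Pool.Agent.H240.SC Pool.Agent.H240.SG Pool.Agent.H240.CG
open Pool.Agent.H240.AL Pool.Agent.H240.GU Pool.Agent.H240.GV

/-! ## Germs -/

section germ

variable {M : Type}

/-- the conditions on a local isometry at a point -/
def Cnd (Ω1 : Set ℂ) (φ1 : ℂ → ℝ) (pr1 : ℂ → M) (Ω2 : Set ℂ) (φ2 : ℂ → ℝ) (pr2 : ℂ → M)
    (γ : ℂ → ℂ) (ζ : ℂ) : Prop :=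
  ζ ∈ Ω1 ∧ DifferentiableAt ℂ γ ζ ∧ γ ζ ∈ Ω2 ∧ pr2 (γ ζ) = pr1 ζ ∧ deriv γ ζ ≠ 0 ∧
    φ2 (γ ζ) + Real.log ‖deriv γ ζ‖ = φ1 ζ

/-- a local isometry from a domain to another one -/
def G2 (Ω1 : Set ℂ) (φ1 : ℂ → ℝ) (pr1 : ℂ → M) (Ω2 : Set ℂ) (φ2 : ℂ → ℝ) (pr2 : ℂ → M)
    (p p' : Y) : Prop :=
  ∃ γ : ℂ → ℂ, γ p.1 = p'.1 ∧ (∀ᶠ ζ in 𝓝 p.1, Cnd Ω1 φ1 pr1 Ω2 φ2 pr2 γ ζ) ∧
    Complex.exp (p'.2 * Complex.I) * ‖deriv γ p.1‖ = Complex.exp (p.2 * Complex.I) * deriv γ p.1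

variable {Ω1 Ω2 Ω3 : Set ℂ} {φ1 φ2 φ3 : ℂ → ℝ} {pr1 pr2 pr3 : ℂ → M} {p p' p'' : Y}

theorem germ_iff {Ω : Set ℂ} {φ : ℂ → ℝ} {pr : ℂ → M} :
    Germ Ω φ pr p p' ↔ G2 Ω φ pr Ω φ pr p p' := by
  constructor
  · rintro ⟨r, γ, hr, hb, hd, hγ, hp, he⟩
    refine ⟨γ, hγ, ?_, he⟩
    filter_upwards [Metric.ball_mem_nhds p.1 hr] with ζ hζ
    obtain ⟨g1, g2, g3, g4⟩ := hp ζ hζ
    exact ⟨hb hζ, hd.differentiableAt (Metric.isOpen_ball.mem_nhds hζ), g1, g2, g3, g4⟩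
  · rintro ⟨γ, hγ, hp, he⟩
    obtain ⟨r, hr, hb⟩ := Metric.eventually_nhds_iff_ball.1 hp
    exact ⟨r, γ, hr, fun ζ hζ => (hb ζ hζ).1,
      fun ζ hζ => (hb ζ hζ).2.1.differentiableWithinAt, hγ, fun ζ hζ => (hb ζ hζ).2.2, he⟩

theorem G2.trans (h : G2 Ω1 φ1 pr1 Ω2 φ2 pr2 p p') (h' : G2 Ω2 φ2 pr2 Ω3 φ3 pr3 p' p'') :
    G2 Ω1 φ1 pr1 Ω3 φ3 pr3 p p'' := by
  obtain ⟨γ, hγ, hp, he⟩ := h
  obtain ⟨γ', hγ', hp', he'⟩ := h'
  have hder : ∀ ζ : ℂ, DifferentiableAt ℂ γ ζ → DifferentiableAt ℂ γ' (γ ζ) →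
      HasDerivAt (fun ζ => γ' (γ ζ)) (deriv γ' (γ ζ) * deriv γ ζ) ζ :=
    fun ζ h1 h2 => h2.hasDerivAt.comp ζ h1.hasDerivAt
  have hc : Tendsto γ (𝓝 p.1) (𝓝 p'.1) := by
    have h1 : Tendsto γ (𝓝 p.1) (𝓝 (γ p.1)) := hp.self_of_nhds.2.1.continuousAt
    rwa [hγ] at h1
  refine ⟨fun ζ => γ' (γ ζ), ?_, ?_, ?_⟩
  · show γ' (γ p.1) = p''.1
    rw [hγ, hγ']
  · filter_upwards [hp, hc.eventually hp'] with ζ h1 h2
    obtain ⟨a1, a2, a3, a4, a5, a6⟩ := h1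
    obtain ⟨b1, b2, b3, b4, b5, b6⟩ := h2
    have hd := hder ζ a2 b2
    refine ⟨a1, hd.differentiableAt, b3, b4.trans a4, ?_, ?_⟩
    · rw [hd.deriv]
      exact mul_ne_zero b5 a5
    · rw [hd.deriv, norm_mul, Real.log_mul (norm_ne_zero_iff.2 b5) (norm_ne_zero_iff.2 a5)]
      show φ3 (γ' (γ ζ)) + _ = _
      linarith
  · have hd := hder p.1 hp.self_of_nhds.2.1 (by rw [hγ]; exact hp'.self_of_nhds.2.1)
    rw [hd.deriv, hγ, norm_mul]
    push_cast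
    linear_combination (‖deriv γ p.1‖ : ℂ) * he' + deriv γ' p'.1 * he

theorem G2.symm (h : G2 Ω1 φ1 pr1 Ω2 φ2 pr2 p p') : G2 Ω2 φ2 pr2 Ω1 φ1 pr1 p' p := by
  obtain ⟨γ, hγ, hp, he⟩ := h
  have han : AnalyticAt ℂ γ p.1 :=
    Complex.analyticAt_iff_eventually_differentiableAt.2 (hp.mono fun ζ h => h.2.1)
  have hst := han.hasStrictDerivAt
  have h0 : deriv γ p.1 ≠ 0 := hp.self_of_nhds.2.2.2.2.1
  obtain ⟨e, he0, hs⟩ : ∃ e : OpenPartialHomeomorph ℂ ℂ, (e : ℂ → ℂ) = γ ∧ p.1 ∈ e.source :=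
    ⟨(hst.hasStrictFDerivAt_equiv h0).toOpenPartialHomeomorph γ, rfl,
      (hst.hasStrictFDerivAt_equiv h0).mem_toOpenPartialHomeomorph_source⟩
  have ht : p'.1 ∈ e.target := by
    rw [← hγ, ← he0]
    exact e.map_source hs
  have hinv : e.symm p'.1 = p.1 := by
    rw [← hγ, ← he0]
    exact e.left_inv hs
  have htend : Tendsto e.symm (𝓝 p'.1) (𝓝 p.1) := by
    have h1 : Tendsto e.symm (𝓝 p'.1) (𝓝 (e.symm p'.1)) := e.continuousAt_symm ht
    rwa [hinv] at h1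
  refine ⟨e.symm, hinv, ?_, ?_⟩
  · filter_upwards [e.open_target.mem_nhds ht, htend.eventually hp] with y hy h1
    obtain ⟨a1, a2, a3, a4, a5, a6⟩ := h1
    have hr : γ (e.symm y) = y := by
      rw [← he0]
      exact e.right_inv hy
    have hd : HasDerivAt e.symm (deriv γ (e.symm y))⁻¹ y :=
      e.hasDerivAt_symm hy a5 (by rw [he0]; exact a2.hasDerivAt)
    rw [hr] at a3 a4 a6
    refine ⟨a3, hd.differentiableAt, a1, a4.symm, ?_, ?_⟩
    · rw [hd.deriv]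
      exact inv_ne_zero a5
    · rw [hd.deriv, norm_inv, Real.log_inv]
      linarith
  · have hd : HasDerivAt e.symm (deriv γ p.1)⁻¹ p'.1 :=
      e.hasDerivAt_symm ht h0 (by rw [he0, hinv]; exact hst.hasDerivAt)
    rw [hd.deriv, norm_inv]
    push_cast
    have hn : (‖deriv γ p.1‖ : ℂ) ≠ 0 := by exact_mod_cast norm_ne_zero_iff.2 h0
    generalize Complex.exp (p'.2 * Complex.I) = E' at he ⊢
    generalize Complex.exp (p.2 * Complex.I) = E at he ⊢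
    rw [← div_eq_mul_inv, ← div_eq_mul_inv, div_eq_div_iff hn h0]
    exact he.symm

end germ

/-! ## The pullback -/

section pull

variable {M P : Type} {Ω U : Set ℂ} {φ : ℂ → ℝ} {pr : ℂ → M} {q : Y → P} {Ψ D : ℂ → ℂ}

/-- the metric of the pullback -/
def pF (φ : ℂ → ℝ) (Ψ D : ℂ → ℂ) (z : ℂ) : ℝ := φ (Ψ z) + Real.log ‖D z‖

/-- the differential of `Ψ` on the unit vectors -/
def pY (Ψ D : ℂ → ℂ) (p : Y) : Y := (Ψ p.1, p.2 + Complex.arg (D p.1))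

/-- `Ψ` is a local biholomorphism from `U` to `Ω` -/
structure Lb (U Ω : Set ℂ) (Ψ D : ℂ → ℂ) : Prop where
  opn : IsOpen U
  der : ∀ z ∈ U, HasDerivAt Ψ (D z) z
  ne : ∀ z ∈ U, D z ≠ 0
  maps : ∀ z ∈ U, Ψ z ∈ Ω

theorem G2_psi (h : Lb U Ω Ψ D) {p : Y} (hp : p.1 ∈ U) :
    G2 U (pF φ Ψ D) (fun z => pr (Ψ z)) Ω φ pr p (pY Ψ D p) := by
  refine ⟨Ψ, rfl, ?_, ?_⟩
  · filter_upwards [h.opn.mem_nhds hp] with ζ hζ
    have hd := h.der ζ hζ
    refine ⟨hζ, hd.differentiableAt, h.maps ζ hζ, rfl, ?_, ?_⟩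
    · rw [hd.deriv]
      exact h.ne ζ hζ
    · rw [hd.deriv]
      rfl
  · rw [(h.der p.1 hp).deriv]
    show Complex.exp (((p.2 + Complex.arg (D p.1) : ℝ) : ℂ) * Complex.I) * ‖D p.1‖ =
      Complex.exp (p.2 * Complex.I) * D p.1
    push_cast
    rw [add_mul, Complex.exp_add, mul_assoc]
    congr 1
    rw [mul_comm]
    exact Complex.norm_mul_exp_arg_mul_I (D p.1)

theorem germ_pull (h : Lb U Ω Ψ D) {p p' : Y} (hp : p.1 ∈ U) (hp' : p'.1 ∈ U) :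
    Germ Ω φ pr (pY Ψ D p) (pY Ψ D p') ↔ Germ U (pF φ Ψ D) (fun z => pr (Ψ z)) p p' := by
  rw [germ_iff, germ_iff]
  constructor
  · intro h1
    exact ((G2_psi h hp).trans h1).trans (G2_psi h hp').symm
  · intro h1
    exact ((G2_psi h hp).symm.trans h1).trans (G2_psi h hp')

theorem exp_arg {w : ℂ} (hw : w ≠ 0) : Complex.exp (Complex.arg w * Complex.I) = w / ‖w‖ := by
  have hn : (‖w‖ : ℂ) ≠ 0 := by exact_mod_cast norm_ne_zero_iff.2 hw
  rw [eq_div_iff hn, mul_comm]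
  exact Complex.norm_mul_exp_arg_mul_I w

variable [TopologicalSpace M] [TopologicalSpace P]

/-- the unit vector depends only on the direction -/
theorem q_eq (h : IsUT Ω φ pr q) {z : ℂ} (hz : z ∈ Ω) {θ θ' : ℝ}
    (he : Complex.exp (θ * Complex.I) = Complex.exp (θ' * Complex.I)) :
    q (z, θ) = q (z, θ') := by
  refine (h.rel (z, θ) hz (z, θ') hz).2 (germ_iff.2 ⟨fun z => z, rfl, ?_, ?_⟩)
  · filter_upwards [h.opn.mem_nhds hz] with ζ hζ
    have hd : deriv (fun z : ℂ => z) ζ = 1 := deriv_id ζ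
    refine ⟨hζ, differentiableAt_id, hζ, rfl, ?_, ?_⟩
    · rw [hd]
      exact one_ne_zero
    · rw [hd, norm_one, Real.log_one, add_zero]
  · have hd : deriv (fun z : ℂ => z) (z, θ).1 = 1 := deriv_id _
    rw [hd, norm_one]
    show Complex.exp (θ' * Complex.I) * ((1 : ℝ) : ℂ) = Complex.exp (θ * Complex.I) * 1
    rw [he, Complex.ofReal_one]

/-- a branch of the differential which is continuous at `z0` -/
def pC (Ψ D : ℂ → ℂ) (z0 : ℂ) (p : Y) : Y :=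
  (Ψ p.1, p.2 + (Complex.arg (D z0) + Complex.arg (D p.1 / D z0)))

theorem q_pC (h : IsUT Ω φ pr q) (hL : Lb U Ω Ψ D) {z0 : ℂ} (hz0 : z0 ∈ U) {p : Y}
    (hp : p.1 ∈ U) : q (pC Ψ D z0 p) = q (pY Ψ D p) := by
  refine q_eq h (hL.maps p.1 hp) ?_
  have h0 := hL.ne z0 hz0
  have h1 := hL.ne p.1 hp
  have hn0 : (‖D z0‖ : ℂ) ≠ 0 := by exact_mod_cast norm_ne_zero_iff.2 h0
  have hn1 : (‖D p.1‖ : ℂ) ≠ 0 := by exact_mod_cast norm_ne_zero_iff.2 h1
  push_cast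
  rw [add_mul, add_mul, add_mul, Complex.exp_add, Complex.exp_add, Complex.exp_add,
    exp_arg h0, exp_arg h1, exp_arg (div_ne_zero h1 h0), norm_div]
  push_cast
  field_simp

theorem lb_cont (hL : Lb U Ω Ψ D) {z : ℂ} (hz : z ∈ U) : ContinuousAt Ψ z :=
  (hL.der z hz).continuousAt

theorem lb_hol (hL : Lb U Ω Ψ D) : DifferentiableOn ℂ Ψ U :=
  fun z hz => (hL.der z hz).differentiableAt.differentiableWithinAt

theorem lb_holD (hL : Lb U Ω Ψ D) : DifferentiableOn ℂ D U := by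
  have h1 : DifferentiableOn ℂ (deriv Ψ) U := (lb_hol hL).deriv hL.opn
  exact h1.congr fun z hz => (hL.der z hz).deriv.symm

theorem lb_strict (hL : Lb U Ω Ψ D) {z : ℂ} (hz : z ∈ U) : HasStrictDerivAt Ψ (D z) z := by
  have h1 := ((lb_hol hL).analyticAt (hL.opn.mem_nhds hz)).hasStrictDerivAt
  rwa [(hL.der z hz).deriv] at h1

theorem lb_open (hL : Lb U Ω Ψ D) {O : Set ℂ} (hO : IsOpen O) (hOs : O ⊆ U) :
    IsOpen (Ψ '' O) := by
  rw [isOpen_iff_mem_nhds]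
  rintro _ ⟨z, hz, rfl⟩
  rw [← (lb_strict hL (hOs hz)).map_nhds_eq (hL.ne z (hOs hz))]
  exact image_mem_map (hO.mem_nhds hz)

theorem cont_c (hL : Lb U Ω Ψ D) {z0 : ℂ} (hz0 : z0 ∈ U) :
    ContinuousAt (fun z => Complex.arg (D z / D z0)) z0 := by
  have h1 : ContinuousAt D z0 := ((lb_holD hL).differentiableAt (hL.opn.mem_nhds hz0)).continuousAt
  have h2 : ContinuousAt (fun z => D z / D z0) z0 := h1.div_const _
  have h3 : ContinuousAt Complex.arg (D z0 / D z0) := by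
    rw [div_self (hL.ne z0 hz0)]
    exact Complex.continuousAt_arg Complex.one_mem_slitPlane
  exact ContinuousAt.comp (g := Complex.arg) (f := fun z => D z / D z0) h3 h2

theorem cont_pC (hL : Lb U Ω Ψ D) {p0 : Y} (hp0 : p0.1 ∈ U) :
    ContinuousAt (pC Ψ D p0.1) p0 := by
  have h1 : ContinuousAt (fun p : Y => Ψ p.1) p0 :=
    ContinuousAt.comp (g := Ψ) (f := fun p : Y => p.1) (lb_cont hL hp0) continuousAt_fst
  have h2 : ContinuousAt (fun p : Y => Complex.arg (D p.1 / D p0.1)) p0 :=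
    ContinuousAt.comp (g := fun z => Complex.arg (D z / D p0.1)) (f := fun p : Y => p.1)
      (cont_c hL hp0) continuousAt_fst
  exact h1.prodMk (continuousAt_snd.add (continuousAt_const.add h2))

theorem nhds_pC (hL : Lb U Ω Ψ D) {p0 : Y} (hp0 : p0.1 ∈ U) {s : Set Y} (hs : s ∈ 𝓝 p0) :
    pC Ψ D p0.1 '' s ∈ 𝓝 (pC Ψ D p0.1 p0) := by
  obtain ⟨c, hc⟩ : ∃ c : ℂ → ℝ, c = fun z => Complex.arg (D p0.1) +
    Complex.arg (D z / D p0.1) := ⟨_, rfl⟩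
  have hcc : ContinuousAt c p0.1 := by
    rw [hc]
    exact continuousAt_const.add (cont_c hL hp0)
  have hpC : ∀ p : Y, pC Ψ D p0.1 p = (Ψ p.1, p.2 + c p.1) := by
    intro p
    rw [hc]
    rfl
  -- the shear
  have h1 : (fun p : Y => ((p.1, p.2 + c p.1) : Y)) '' s ∈ 𝓝 ((p0.1, p0.2 + c p0.1) : Y) := by
    have h2 : ContinuousAt (fun p : Y => ((p.1, p.2 - c p.1) : Y)) (p0.1, p0.2 + c p0.1) := by
      have h3 : ContinuousAt (fun p : Y => c p.1) ((p0.1, p0.2 + c p0.1) : Y) :=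
        ContinuousAt.comp (g := c) (f := fun p : Y => p.1) hcc continuousAt_fst
      exact continuousAt_fst.prodMk (continuousAt_snd.sub h3)
    have h4 : s ∈ 𝓝 ((fun p : Y => ((p.1, p.2 - c p.1) : Y)) (p0.1, p0.2 + c p0.1)) := by
      have e : (fun p : Y => ((p.1, p.2 - c p.1) : Y)) (p0.1, p0.2 + c p0.1) = p0 := by
        ext1
        · rfl
        · show p0.2 + c p0.1 - c p0.1 = p0.2
          ring
      rw [e]
      exact hs
    filter_upwards [h2.preimage_mem_nhds h4] with p hp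
    refine ⟨(p.1, p.2 - c p.1), hp, ?_⟩
    ext1
    · rfl
    · show p.2 - c p.1 + c p.1 = p.2
      ring
  -- the product map
  have h5 : map (Prod.map Ψ (id : ℝ → ℝ)) (𝓝 ((p0.1, p0.2 + c p0.1) : Y)) =
      𝓝 ((Ψ p0.1, p0.2 + c p0.1) : Y) := by
    rw [nhds_prod_eq, nhds_prod_eq, ← Filter.prod_map_map_eq', map_id,
      (lb_strict hL hp0).map_nhds_eq (hL.ne _ hp0)]
  rw [hpC p0, ← h5]
  have h6 : pC Ψ D p0.1 '' s =
      Prod.map Ψ (id : ℝ → ℝ) '' ((fun p : Y => ((p.1, p.2 + c p.1) : Y)) '' s) := by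
    rw [image_image]
    exact image_congr fun p _ => hpC p
  rw [h6]
  exact image_mem_map h1

theorem nhds_q (h : IsUT Ω φ pr q) {p : Y} (hp : p.1 ∈ Ω) {s : Set Y} (hs : s ∈ 𝓝 p) :
    q '' s ∈ 𝓝 (q p) := by
  have hY : IsOpen (YO Ω) := h.opn.preimage continuous_fst
  have h1 : IsOpen (interior s ∩ YO Ω) := isOpen_interior.inter hY
  have h2 := h.opnq _ h1 inter_subset_right
  refine mem_of_superset (h2.mem_nhds ⟨p, ⟨mem_interior_iff_mem_nhds.2 hs, hp⟩, rfl⟩) ?_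
  exact image_mono (inter_subset_left.trans interior_subset)

theorem ut_pull (h : IsUT Ω φ pr q) (hL : Lb U Ω Ψ D)
    (hsur : ∀ x : M, ∃ z ∈ U, pr (Ψ z) = x) :
    IsUT U (pF φ Ψ D) (fun z => pr (Ψ z)) (fun p => q (pY Ψ D p)) := by
  refine ⟨hL.opn, ?_, ?_, ?_, ?_, ?_, ?_, ?_, ?_, ?_, ?_⟩
  · have h1 : ContDiffOn ℝ ∞ Ψ U := ((lb_hol hL).contDiffOn hL.opn).restrict_scalars ℝ
    have h2 : ContDiffOn ℝ ∞ D U := ((lb_holD hL).contDiffOn hL.opn).restrict_scalars ℝ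
    have h3 : ContDiffOn ℝ ∞ (fun z => φ (Ψ z)) U := h.smooth.comp h1 fun z hz => hL.maps z hz
    have h4 : ContDiffOn ℝ ∞ (fun z => ‖D z‖) U := h2.norm ℝ hL.ne
    exact h3.add (h4.log fun z hz => norm_ne_zero_iff.2 (hL.ne z hz))
  · exact h.contp.comp (lb_hol hL).continuousOn fun z hz => hL.maps z hz
  · intro O hO hOs
    rw [show (fun z => pr (Ψ z)) '' O = pr '' (Ψ '' O) by rw [image_image]]
    refine h.opnp _ (lb_open hL hO hOs) ?_
    rintro _ ⟨z, hz, rfl⟩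
    exact hL.maps z (hOs hz)
  · rw [eq_univ_iff_forall]
    intro x
    obtain ⟨z, hz, hx⟩ := hsur x
    exact ⟨z, hz, hx⟩
  · intro z hz
    obtain ⟨r, hr, hb, hi⟩ := h.injp (Ψ z) (hL.maps z hz)
    have hst := lb_strict hL hz
    have h1 : ∀ᶠ w in 𝓝 z, w ∈ ((hst.hasStrictFDerivAt_equiv
        (hL.ne z hz)).toOpenPartialHomeomorph Ψ).source :=
      ((hst.hasStrictFDerivAt_equiv (hL.ne z hz)).toOpenPartialHomeomorph Ψ).open_source.mem_nhds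
        (hst.hasStrictFDerivAt_equiv (hL.ne z hz)).mem_toOpenPartialHomeomorph_source
    have h2 : ∀ᶠ w in 𝓝 z, Ψ w ∈ Metric.ball (Ψ z) r :=
      (lb_cont hL hz).preimage_mem_nhds (Metric.ball_mem_nhds _ hr)
    obtain ⟨ρ, hρ, hball⟩ := Metric.eventually_nhds_iff_ball.1
      ((h1.and h2).and (hL.opn.mem_nhds hz : ∀ᶠ w in 𝓝 z, w ∈ U))
    refine ⟨ρ, hρ, fun w hw => (hball w hw).2, ?_⟩
    intro w hw w' hw' he
    have e1 := hi (hball w hw).1.2 (hball w' hw').1.2 he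
    exact ((hst.hasStrictFDerivAt_equiv (hL.ne z hz)).toOpenPartialHomeomorph Ψ).injOn
      (hball w hw).1.1 (hball w' hw').1.1 e1
  · intro p0 hp0
    have h1 : ContinuousAt q (pC Ψ D p0.1 p0) :=
      h.contq.continuousAt ((h.opn.preimage continuous_fst).mem_nhds (hL.maps p0.1 hp0))
    have h2 : ContinuousAt (fun p => q (pC Ψ D p0.1 p)) p0 :=
      ContinuousAt.comp (g := q) (f := pC Ψ D p0.1) h1 (cont_pC hL hp0)
    refine (h2.congr ?_).continuousWithinAt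
    filter_upwards [(hL.opn.preimage continuous_fst).mem_nhds hp0] with p hp
    exact q_pC h hL hp0 hp
  · intro O hO hOs
    rw [isOpen_iff_mem_nhds]
    rintro _ ⟨p0, hp0, rfl⟩
    have h1 := nhds_pC hL (hOs hp0) (hO.mem_nhds hp0)
    have h2 := nhds_q h (p := pC Ψ D p0.1 p0) (hL.maps _ (hOs hp0)) h1
    rw [q_pC h hL (hOs hp0) (hOs hp0)] at h2
    refine mem_of_superset h2 ?_
    rintro _ ⟨_, ⟨p, hp, rfl⟩, rfl⟩
    exact ⟨p, hp, (q_pC h hL (hOs hp0) (hOs hp)).symm⟩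
  · rw [eq_univ_iff_forall]
    intro y
    obtain ⟨p, hp, rfl⟩ : y ∈ q '' YO Ω := by rw [h.surjq]; exact mem_univ y
    obtain ⟨z, hz, hx⟩ := hsur (pr p.1)
    obtain ⟨θ', hg⟩ := h.deck p.1 hp (Ψ z) (hL.maps z hz) hx.symm p.2
    refine ⟨(z, θ' - Complex.arg (D z)), hz, ?_⟩
    show q (Ψ z, θ' - Complex.arg (D z) + Complex.arg (D z)) = q p
    rw [sub_add_cancel]
    exact ((h.rel p hp (Ψ z, θ') (hL.maps z hz)).2 hg).symm
  · intro p hp p' hp'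
    show q (pY Ψ D p) = q (pY Ψ D p') ↔ _
    rw [h.rel _ (hL.maps p.1 hp) _ (hL.maps p'.1 hp'), germ_pull hL hp hp']
  · intro z hz w hw he θ
    obtain ⟨θ', hg⟩ := h.deck (Ψ z) (hL.maps z hz) (Ψ w) (hL.maps w hw) he
      (θ + Complex.arg (D z))
    refine ⟨θ' - Complex.arg (D w), ?_⟩
    rw [← germ_pull hL (p := (z, θ)) (p' := (w, θ' - Complex.arg (D w))) hz hw]
    show Germ Ω φ pr (Ψ z, θ + Complex.arg (D z))
      (Ψ w, θ' - Complex.arg (D w) + Complex.arg (D w))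
    rw [sub_add_cancel]
    exact hg

end pull

/-! ## The union -/

open scoped Classical in
/-- the map to the domain -/
def uP (Ω : Set ℂ) (Γ : ℂ → ℂ) (R0 δ : ℝ) (z : ℂ) : ℂ :=
  if z ∈ Ω then z else Γ (z - ((R0 + δ : ℝ) : ℂ))

open scoped Classical in
/-- its derivative -/
def uD (Ω : Set ℂ) (Γ : ℂ → ℂ) (R0 δ : ℝ) (z : ℂ) : ℂ :=
  if z ∈ Ω then 1 else deriv Γ (z - ((R0 + δ : ℝ) : ℂ))

/-- **GV-1** -/
theorem stUn1 : StUn1 := by
  intro M P _ _ _ _ Ω φ pr q Γ δ R0 h g hR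
  have hS : IsOpen {z : ℂ | |z.re - (R0 + δ)| < δ} := by
    refine isOpen_lt ?_ continuous_const
    fun_prop
  have hdis : ∀ z : ℂ, |z.re - (R0 + δ)| < δ → z ∉ Ω := by
    intro z hz hzΩ
    have h1 := hR z hzΩ
    have h2 := (abs_lt.1 hz).1
    linarith
  have hT : ∀ z : ℂ, |z.re - (R0 + δ)| < δ → z - ((R0 + δ : ℝ) : ℂ) ∈ Sx 0 δ := by
    intro z hz
    show |(z - ((R0 + δ : ℝ) : ℂ)).re - 0| < δ
    rw [Complex.sub_re, Complex.ofReal_re, sub_zero]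
    exact hz
  have hSx : IsOpen (Sx 0 δ) := by
    show IsOpen {z : ℂ | |z.re - 0| < δ}
    refine isOpen_lt ?_ continuous_const
    fun_prop
  have hL : Lb (Uo Ω R0 δ) Ω (uP Ω Γ R0 δ) (uD Ω Γ R0 δ) := by
    refine ⟨h.opn.union hS, ?_, ?_, ?_⟩
    · intro z hz
      by_cases hzΩ : z ∈ Ω
      · have h1 : uD Ω Γ R0 δ z = 1 := if_pos hzΩ
        rw [h1]
        refine (hasDerivAt_id z).congr_of_eventuallyEq ?_
        filter_upwards [h.opn.mem_nhds hzΩ] with w hw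
        exact if_pos hw
      · have hzS : |z.re - (R0 + δ)| < δ := hz.resolve_left hzΩ
        have h1 : uD Ω Γ R0 δ z = deriv Γ (z - ((R0 + δ : ℝ) : ℂ)) := if_neg hzΩ
        rw [h1]
        have h2 : HasDerivAt Γ (deriv Γ (z - ((R0 + δ : ℝ) : ℂ))) (z - ((R0 + δ : ℝ) : ℂ)) :=
          (g.hol.differentiableAt (hSx.mem_nhds (hT z hzS))).hasDerivAt
        have h3 : HasDerivAt (fun w : ℂ => w - ((R0 + δ : ℝ) : ℂ)) 1 z :=
          (hasDerivAt_id z).sub_const _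
        have h4 := h2.comp z h3
        rw [mul_one] at h4
        refine h4.congr_of_eventuallyEq ?_
        filter_upwards [hS.mem_nhds hzS] with w hw
        exact if_neg (hdis w hw)
    · intro z hz
      by_cases hzΩ : z ∈ Ω
      · have h1 : uD Ω Γ R0 δ z = 1 := if_pos hzΩ
        rw [h1]
        exact one_ne_zero
      · have h1 : uD Ω Γ R0 δ z = deriv Γ (z - ((R0 + δ : ℝ) : ℂ)) := if_neg hzΩ
        rw [h1]
        exact g.d0 _ (hT z (hz.resolve_left hzΩ))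
    · intro z hz
      by_cases hzΩ : z ∈ Ω
      · have h1 : uP Ω Γ R0 δ z = z := if_pos hzΩ
        rw [h1]
        exact hzΩ
      · have h1 : uP Ω Γ R0 δ z = Γ (z - ((R0 + δ : ℝ) : ℂ)) := if_neg hzΩ
        rw [h1]
        exact g.maps _ (hT z (hz.resolve_left hzΩ))
  have hsur : ∀ x : M, ∃ z ∈ Uo Ω R0 δ, pr (uP Ω Γ R0 δ z) = x := by
    intro x
    obtain ⟨z, hz, hx⟩ : x ∈ pr '' Ω := by rw [h.surjp]; exact mem_univ x
    refine ⟨z, Or.inl hz, ?_⟩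
    have h1 : uP Ω Γ R0 δ z = z := if_pos hz
    rw [h1]
    exact hx
  have hmain := ut_pull h hL hsur
  have e1 : Uf Ω φ Γ R0 δ = pF φ (uP Ω Γ R0 δ) (uD Ω Γ R0 δ) := by
    funext z
    unfold Uf pF uP uD Pb
    by_cases hzΩ : z ∈ Ω
    · simp only [if_pos hzΩ]
      rw [norm_one, Real.log_one, add_zero]
    · simp only [if_neg hzΩ]
  have e2 : Up Ω pr Γ R0 δ = fun z => pr (uP Ω Γ R0 δ z) := by
    funext z
    unfold Up uP
    by_cases hzΩ : z ∈ Ω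
    · simp only [if_pos hzΩ]
    · simp only [if_neg hzΩ]
  have e3 : Uq Ω q Γ R0 δ = fun p => q (pY (uP Ω Γ R0 δ) (uD Ω Γ R0 δ) p) := by
    funext p
    unfold Uq pY uP uD
    by_cases hzΩ : p.1 ∈ Ω
    · simp only [if_pos hzΩ]
      rw [Complex.arg_one, add_zero]
    · simp only [if_neg hzΩ]
  rw [e1, e2, e3]
  exact hmain

end Pool.Agent.H764.GV
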